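import Pool.Agent.Zk58.EK.Def

/-!
Compactness: limits of approximate ground states are weak ground states.
-/

set_option autoImplicit false
set_option linter.all false

namespace Pool.Agent.Zk80.EK

open Finset Filter Pool.Agent.Zk58.EK

open scoped BigOperators Topology

theorem thm : S_CPT := by
  classical
  intro d k S ψ R F X σ hσ hA
  set U : Ultrafilter ℕ := hyperfilter ℕ with hU
  have hUle : (U : Filter ℕ) ≤ atTop := by
    rw [← Nat.cofinite_eq_atTop]
    exact hyperfilter_le_cofinite
  let τ : Cfg d k := fun a x => if (∀ᶠ m in (U : Filter ℕ), σ m a x = 1) then 1 else -1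
  have hτ : IsConf τ := by
    intro a x
    by_cases h : ∀ᶠ m in (U : Filter ℕ), σ m a x = 1
    · left; simp only [τ]; rw [if_pos h]
    · right; simp only [τ]; rw [if_neg h]
  have h1 : ∀ a x, ∀ᶠ m in (U : Filter ℕ), σ m a x = τ a x := by
    intro a x
    by_cases h : ∀ᶠ m in (U : Filter ℕ), σ m a x = 1
    · have h2 : τ a x = 1 := by simp only [τ]; rw [if_pos h]
      rw [h2]; exact h
    · have h2 : τ a x = -1 := by simp only [τ]; rw [if_neg h]
      rw [h2]
      have h3 : ∀ᶠ m in (U : Filter ℕ), ¬ σ m a x = 1 := by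
        rw [← Ultrafilter.eventually_not] at h
        exact h
      filter_upwards [h3] with m hm
      rcases hσ m a x with h4 | h4
      · exact absurd h4 hm
      · exact h4
  have h2 : ∀ B : Finset (Site d), ∀ᶠ m in (U : Filter ℕ), ∀ a, ∀ x ∈ B, σ m a x = τ a x := by
    intro B
    rw [eventually_all]
    intro a
    rw [Filter.eventually_all_finset]
    intro x _
    exact h1 a x
  refine ⟨τ, ⟨hτ, fun a A => ?_⟩, fun B => ?_⟩
  · -- the box
    have h3 : ∀ᶠ m : ℕ in atTop, A ⊆ Bx d m := by
      have h4 : ∀ x ∈ A, ∀ᶠ m : ℕ in atTop, x ∈ Bx d m := by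
        intro x _
        rw [eventually_atTop]
        refine ⟨∑ i, (x i).natAbs, fun m hm => ?_⟩
        unfold Bx cube
        rw [Fintype.mem_piFinset]
        intro i
        have h5 : (x i).natAbs ≤ ∑ j, (x j).natAbs :=
          Finset.single_le_sum (f := fun j => (x j).natAbs) (fun j _ => Nat.zero_le _) (mem_univ i)
        rw [Finset.mem_Ico]
        push_cast
        omega
      have h6 := (Filter.eventually_all_finset A).2 h4
      filter_upwards [h6] with m hm x hx
      exact hm x hx
    set B : Finset (Site d) := (bdry A).image (fun e => e.1) ∪ (bdry A).image tip with hB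
    have h4 : ∀ᶠ m : ℕ in (U : Filter ℕ), -(1 / ((m : ℝ) + 1)) * QA R F X A ≤
        bs (fun e => ψ (X e)) (τ a) A := by
      filter_upwards [hUle h3, h2 B] with m hm hm2
      have h5 := hA m a A hm
      have h6 : bs (fun e => ψ (X e)) (σ m a) A = bs (fun e => ψ (X e)) (τ a) A := by
        unfold bs
        refine Finset.sum_congr rfl fun e he => ?_
        rw [hm2 a e.1 (by
          rw [hB, Finset.mem_union]
          exact Or.inl (Finset.mem_image_of_mem _ he)), hm2 a (tip e) (by
          rw [hB, Finset.mem_union]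
          exact Or.inr (Finset.mem_image_of_mem _ he))]
      rw [h6] at h5
      exact h5
    have h5 : Tendsto (fun m : ℕ => -(1 / ((m : ℝ) + 1)) * QA R F X A) (U : Filter ℕ) (𝓝 0) := by
      have h6 : Tendsto (fun m : ℕ => -(1 / ((m : ℝ) + 1)) * QA R F X A) atTop (𝓝 0) := by
        have h7 := (tendsto_one_div_add_atTop_nhds_zero_nat (𝕜 := ℝ)).neg.mul_const (QA R F X A)
        rw [neg_zero, zero_mul] at h7
        exact h7
      exact h6.mono_left hUle
    exact le_of_tendsto h5 h4
  · exact ((h2 B).frequently).filter_mono hUle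

end Pool.Agent.Zk80.EK
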